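import Pool.Agent.H56.G3.TI

/-!
# Theorem (G), MP_c59857_nt: along most edges a near optimal sum is mapped to a near optimal sum
-/

set_option autoImplicit false

namespace Pool.Agent.H46.G3

open Finset Pool.Agent.H6.N4D Pool.Agent.H93.EB Pool.Agent.H93.GS Pool.Agent.H56.G3

/-- the weight of the primes with a large value -/
theorem ed_mk {s : Finset ℕ} {F : ℕ → ℝ} {κ c : ℝ} (hF : ∀ p ∈ s, 0 ≤ F p) (hc : 0 < c)
    (h : ∑ p ∈ s, 1 / (p : ℝ) * F p ≤ κ) :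
    ∑ p ∈ s.filter (fun p => c < F p), 1 / (p : ℝ) ≤ κ / c := by
  rw [le_div_iff₀ hc, sum_mul]
  refine le_trans ?_ h
  calc ∑ p ∈ s.filter (fun p => c < F p), 1 / (p : ℝ) * c
      ≤ ∑ p ∈ s.filter (fun p => c < F p), 1 / (p : ℝ) * F p := by
        refine sum_le_sum fun p hp => ?_
        exact mul_le_mul_of_nonneg_left (mem_filter.1 hp).2.le (by positivity)
    _ ≤ ∑ p ∈ s, 1 / (p : ℝ) * F p :=
        sum_le_sum_of_subset_of_nonneg (filter_subset _ _) fun p hp _ =>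
          mul_nonneg (by positivity) (hF p hp)

/-- sums and sliding means -/
theorem ed_sl {s : Finset ℕ} {F : ℕ → ℕ → ℝ} {N n : ℕ} :
    ∑ p ∈ s, 1 / (p : ℝ) * sl N n (F p) = sl N n (fun v => ∑ p ∈ s, 1 / (p : ℝ) * F p v) := by
  unfold sl
  have h : ∀ p ∈ s, 1 / (p : ℝ) * ((∑ j ∈ range N, F p (n + j)) / N) =
      (∑ j ∈ range N, 1 / (p : ℝ) * F p (n + j)) / N := by
    intro p _
    rw [← mul_sum, mul_div_assoc]
  rw [sum_congr rfl h, ← sum_div, sum_comm]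

theorem ed_mono {F G : ℕ → ℝ} {N n : ℕ} (h : ∀ v, F v ≤ G v) : sl N n F ≤ sl N n G := by
  unfold sl
  exact div_le_div_of_nonneg_right (sum_le_sum fun j _ => h _) (Nat.cast_nonneg _)

theorem ed_nn {F : ℕ → ℝ} {N n : ℕ} (h : ∀ v, 0 ≤ F v) : 0 ≤ sl N n F := by
  unfold sl
  exact div_nonneg (sum_nonneg fun j _ => h _) (Nat.cast_nonneg _)

theorem ed_add {F G : ℕ → ℝ} {N n : ℕ} :
    sl N n (fun v => F v + G v) = sl N n F + sl N n G := by
  unfold sl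
  rw [sum_add_distrib, add_div]

/-- the union of two sets -/
theorem ed_un (a b : Finset ℕ) :
    ∑ p ∈ a ∪ b, 1 / (p : ℝ) ≤ ∑ p ∈ a, 1 / (p : ℝ) + ∑ p ∈ b, 1 / (p : ℝ) := by
  rw [← sum_union_inter]
  exact le_add_of_nonneg_right (sum_nonneg fun p _ => by positivity)

/-- the union of many sets -/
theorem ed_bu (s : Finset ℕ) (T : ℕ → Finset ℕ) :
    ∑ p ∈ s.biUnion T, 1 / (p : ℝ) ≤ ∑ i ∈ s, ∑ p ∈ T i, 1 / (p : ℝ) := by
  classical
  induction s using Finset.induction_on with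
  | empty => simp
  | insert a s ha ih =>
    rw [biUnion_insert, sum_insert ha]
    exact (ed_un _ _).trans (add_le_add le_rfl ih)

/-- the primes of one level -/
theorem ed_lvl {th κ κ1 κ3 : ℝ} {lam : ℕ → ℝ} {m N n : ℕ} (g : Ex) (h1 : 0 < κ1) (h3 : 0 < κ3)
    (hz : ∀ v, 0 ≤ zs lam m v) (ht : ∀ v, 0 ≤ ts th lam m v)
    (hzz : ∀ (v : ℕ) (α : ℝ),
      ∑ q ∈ QQ m, 1 / (q : ℝ) * zz lam q (2 ^ m) v α (fun _ => 1) ^ 2 ≤ zs lam m v)
    (hs : sl N n (fun v => zs lam m v + ts th lam m v) ≤ κ) :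
    ∃ T : Finset ℕ, ∑ p ∈ T, 1 / (p : ℝ) ≤ κ / κ1 + g.k * (κ / κ3) ∧ ∀ p ∈ QQ m, p ∉ T →
      sl N n (fun v => |En th lam p (2 ^ m) v - En th lam 1 (2 ^ m) v|) ≤ κ1 ∧
      ∀ i < g.k, sl N n (fun v => zz lam p (2 ^ m) v (g.a i) (fun _ => 1) ^ 2) ≤ κ3 := by
  classical
  rw [ed_add] at hs
  refine ⟨(QQ m).filter (fun p =>
      κ1 < sl N n (fun v => |En th lam p (2 ^ m) v - En th lam 1 (2 ^ m) v|)) ∪
    (range g.k).biUnion (fun i => (QQ m).filter (fun p =>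
      κ3 < sl N n (fun v => zz lam p (2 ^ m) v (g.a i) (fun _ => 1) ^ 2))), ?_, ?_⟩
  · refine (ed_un _ _).trans (add_le_add ?_ ((ed_bu _ _).trans ?_))
    · refine ed_mk (fun p _ => ed_nn fun v => abs_nonneg _) h1 ?_
      rw [ed_sl]
      have h := ed_nn (N := N) (n := n) hz
      have e : (fun v => ∑ p ∈ QQ m, 1 / (p : ℝ) *
        |En th lam p (2 ^ m) v - En th lam 1 (2 ^ m) v|) = ts th lam m := rfl
      rw [e]
      linarith
    · calc ∑ i ∈ range g.k, ∑ p ∈ (QQ m).filter (fun p =>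
            κ3 < sl N n (fun v => zz lam p (2 ^ m) v (g.a i) (fun _ => 1) ^ 2)), 1 / (p : ℝ) ≤
          ∑ i ∈ range g.k, κ / κ3 := by
            refine sum_le_sum fun i _ => ?_
            refine ed_mk (fun p _ => ed_nn fun v => sq_nonneg _) h3 ?_
            rw [ed_sl]
            have h := ed_nn (N := N) (n := n) ht
            have k := ed_mono (N := N) (n := n) fun v => hzz v (g.a i)
            linarith
        _ = g.k * (κ / κ3) := by rw [sum_const, card_range, nsmul_eq_mul]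
  · intro p hp hT
    rw [mem_union, mem_biUnion, not_or] at hT
    constructor
    · by_contra hc
      push Not at hc
      exact hT.1 (mem_filter.2 ⟨hp, hc⟩)
    · intro i hi
      by_contra hc
      push Not at hc
      exact hT.2 ⟨i, mem_range.2 hi, mem_filter.2 ⟨hp, hc⟩⟩

/-- the defect of the image -/
theorem ed_df {th κ₂ κ κ1 κ3 η x Lam : ℝ} {lam : ℕ → ℝ} {p M N n N' n' : ℕ} {g : Ex}
    (hth : 0 < th) (hth1 : th ≤ 1) (hκ₂ : 0 < κ₂) (hLam : 0 < Lam)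
    (e1 : En th lam 1 N' n' ≤ En th lam p N n + η)
    (e2 : En th lam p N n ≤ sl N n (En th lam p M) + 100 / th ^ 2 * (M / N))
    (e3 : sl N n (En th lam 1 M) - En th lam 1 N n ≤ κ)
    (e4 : sl N n (fun v => |En th lam p M v - En th lam 1 M v|) ≤ κ1)
    (j1 : |J th lam 1 N' n' (pb p g) - J th lam p N n g| ≤ η)
    (j2 : |J th lam p N n g - J th lam 1 N n g| ≤
      2 * ∑ i ∈ range g.k, ‖g.c i‖ * zz lam p N n (g.a i) (fun _ => 1) +
        g.nm ^ 2 * (1 / (Lam / 2) + 2 * p / N))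
    (j3 : ∀ i < g.k, zz lam p N n (g.a i) (fun _ => 1) ^ 2 ≤
      2 * sl N n (fun v => zz lam p M v (g.a i) (fun _ => 1) ^ 2) + 100 * (M / N))
    (j4 : ∀ i < g.k, sl N n (fun v => zz lam p M v (g.a i) (fun _ => 1) ^ 2) ≤ κ3)
    (hnm : g.nm ≤ 2 / th) (hx : (M : ℝ) / N ≤ x) (hpM : (p : ℝ) ≤ M)
    (hdf : df th lam 1 N n g ≤ κ) (hκ : κ ≤ κ₂ / 16) (hη : η = κ₂ / 16)
    (hκ1 : κ1 = th * κ₂ / 40) (hκ3 : κ3 = κ1 ^ 2 / 4) (hx1 : 200 * x ≤ κ1 ^ 2)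
    (hx2 : 864 * x ≤ th ^ 2 * κ₂) (hL : 64 / (th ^ 2 * κ₂) ≤ Lam) :
    df th lam 1 N' n' (pb p g) ≤ κ₂ := by
  have hκ10 : 0 < κ1 := by rw [hκ1]; positivity
  have hnm0 : 0 ≤ g.nm := sum_nonneg fun i _ => norm_nonneg _
  have hN : (0 : ℝ) ≤ N := Nat.cast_nonneg _
  have hz : ∀ i < g.k, zz lam p N n (g.a i) (fun _ => 1) ≤ κ1 := by
    intro i hi
    have a1 := j3 i hi
    have a2 := j4 i hi
    by_contra hc
    push Not at hc
    have a3 : κ1 ^ 2 < zz lam p N n (g.a i) (fun _ => 1) ^ 2 :=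
      pow_lt_pow_left₀ hc hκ10.le two_ne_zero
    rw [hκ3] at a2
    linarith
  have hsum : ∑ i ∈ range g.k, ‖g.c i‖ * zz lam p N n (g.a i) (fun _ => 1) ≤ 2 / th * κ1 := by
    calc ∑ i ∈ range g.k, ‖g.c i‖ * zz lam p N n (g.a i) (fun _ => 1) ≤
        ∑ i ∈ range g.k, ‖g.c i‖ * κ1 := sum_le_sum fun i hi =>
          mul_le_mul_of_nonneg_left (hz i (mem_range.1 hi)) (norm_nonneg _)
      _ = g.nm * κ1 := by rw [← sum_mul]; rfl
      _ ≤ 2 / th * κ1 := mul_le_mul_of_nonneg_right hnm hκ10.le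
  have hpx : 2 * (p : ℝ) / N ≤ 2 * x := by
    have : (p : ℝ) / N ≤ M / N := div_le_div_of_nonneg_right hpM hN
    rw [mul_div_assoc]
    linarith
  have hL' : 1 / (Lam / 2) ≤ th ^ 2 * κ₂ / 32 := by
    rw [div_le_iff₀ (by positivity)] at hL ⊢
    nlinarith
  have hx0 : 0 ≤ x := le_trans (by positivity) hx
  have hsq : g.nm ^ 2 * (1 / (Lam / 2) + 2 * p / N) ≤
      4 / th ^ 2 * (th ^ 2 * κ₂ / 32 + 2 * x) := by
    have b1 : g.nm ^ 2 ≤ 4 / th ^ 2 := by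
      calc g.nm ^ 2 ≤ (2 / th) ^ 2 := pow_le_pow_left₀ hnm0 hnm 2
        _ = 4 / th ^ 2 := by rw [div_pow]; norm_num
    exact mul_le_mul b1 (by linarith) (by positivity) (by positivity)
  have hslp : sl N n (En th lam p M) ≤ sl N n (En th lam 1 M) + κ1 := by
    have c1 : sl N n (En th lam p M) ≤
        sl N n (fun v => En th lam 1 M v + |En th lam p M v - En th lam 1 M v|) :=
      ed_mono fun v => by linarith [le_abs_self (En th lam p M v - En th lam 1 M v)]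
    rw [ed_add] at c1
    have c2 : sl N n (fun v => En th lam 1 M v) = sl N n (En th lam 1 M) := rfl
    linarith
  have hMN : 100 / th ^ 2 * ((M : ℝ) / N) ≤ 100 / th ^ 2 * x :=
    mul_le_mul_of_nonneg_left hx (by positivity)
  have d1 := (abs_le.1 j1).1
  have d2 := (abs_le.1 j2).1
  have e5 : 100 / th ^ 2 * x + 4 / th ^ 2 * (th ^ 2 * κ₂ / 32 + 2 * x) ≤ κ₂ / 4 := by
    have e6 : 100 / th ^ 2 * x + 4 / th ^ 2 * (th ^ 2 * κ₂ / 32 + 2 * x) =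
        κ₂ / 8 + 108 * x / th ^ 2 := by
      field_simp
      ring
    have e7 : 108 * x / th ^ 2 ≤ κ₂ / 8 := by
      rw [div_le_iff₀ (by positivity)]
      linarith
    rw [e6]
    linarith
  have e8 : κ1 + 2 * (2 / th * κ1) ≤ κ₂ / 8 := by
    have e9 : 2 * (2 / th * κ1) = κ₂ / 10 := by
      rw [hκ1]
      field_simp
      norm_num
    have e10 : κ1 ≤ κ₂ / 40 := by
      rw [hκ1]
      nlinarith
    linarith
  unfold df at hdf ⊢
  linarith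

open Classical in
theorem pf_ED (hRB : T_RB) (hEW : T_EW) (hEJ : T_EJ) (hEQ : T_EQ) (hEZ : T_EZ) (hER : T_ER)
    (hEB : T_EB) (hSN : T_SN) (hSZ : T_SZ) (hWQ : T_WQ)
    (_hBAB : Pool.Agent.H72.EN.T_BAB) : T_ED := by
  intro th κ₂ ε Lam₁ K hth hth1 hκ₂ hε hLam₁ hK
  obtain ⟨W, hW1, hW⟩ := hWQ
  obtain ⟨κ1, hκ1⟩ : ∃ κ1, κ1 = th * κ₂ / 40 := ⟨_, rfl⟩
  have hκ10 : 0 < κ1 := by rw [hκ1]; positivity
  obtain ⟨κ3, hκ3⟩ : ∃ κ3, κ3 = κ1 ^ 2 / 4 := ⟨_, rfl⟩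
  have hκ30 : 0 < κ3 := by rw [hκ3]; positivity
  obtain ⟨r₀, hr₀⟩ : ∃ r₀ : ℝ, r₀ = r0 th := ⟨_, rfl⟩
  have hr₀0 : 0 ≤ r₀ := by rw [hr₀]; positivity
  obtain ⟨D, hD⟩ : ∃ D : ℝ, D = ((2 * K + 2 : ℕ) : ℝ) * (1 / κ1 + r₀ / κ3) := ⟨_, rfl⟩
  have hD0 : 0 < D := by rw [hD]; positivity
  obtain ⟨κ, hκ⟩ : ∃ κ, κ = min 1 (min (κ₂ / 16) (ε / 2 / D)) := ⟨_, rfl⟩
  have hκ0 : 0 < κ := by rw [hκ]; positivity
  have hκa : κ ≤ 1 := by rw [hκ]; exact min_le_left _ _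
  have hκb : κ ≤ κ₂ / 16 := by rw [hκ]; exact (min_le_right _ _).trans (min_le_left _ _)
  have hκc : κ ≤ ε / 2 / D := by rw [hκ]; exact (min_le_right _ _).trans (min_le_right _ _)
  obtain ⟨Lam, hLam⟩ : ∃ Lam, Lam = max (4 * Lam₁) (64 / (th ^ 2 * κ₂)) := ⟨_, rfl⟩
  have hLa : 4 * Lam₁ ≤ Lam := by rw [hLam]; exact le_max_left _ _
  have hLb : 64 / (th ^ 2 * κ₂) ≤ Lam := by rw [hLam]; exact le_max_right _ _
  have hLam0 : 0 < Lam := by linarith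
  refine ⟨κ, Lam, hκ0, by linarith, fun r => ?_⟩
  obtain ⟨A, hA⟩ : ∃ A, A = 6 + 864 / (th ^ 2 * κ₂) + 200 / κ1 ^ 2 + 2 * Lam + 2 * r₀ ^ 2 / ε :=
    ⟨_, rfl⟩
  have hA1 : 6 ≤ A := by
    rw [hA]
    have : 0 ≤ 864 / (th ^ 2 * κ₂) + 200 / κ1 ^ 2 + 2 * Lam + 2 * r₀ ^ 2 / ε := by positivity
    linarith
  have hA0 : 0 < A := by linarith
  have hA2 : 864 / (th ^ 2 * κ₂) ≤ A := by
    rw [hA]
    have : 0 ≤ 6 + 200 / κ1 ^ 2 + 2 * Lam + 2 * r₀ ^ 2 / ε := by positivity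
    linarith
  have hA3 : 200 / κ1 ^ 2 ≤ A := by
    rw [hA]
    have : 0 ≤ 6 + 864 / (th ^ 2 * κ₂) + 2 * Lam + 2 * r₀ ^ 2 / ε := by positivity
    linarith
  have hA4 : 2 * Lam < A := by
    rw [hA]
    have : 0 ≤ 864 / (th ^ 2 * κ₂) + 200 / κ1 ^ 2 + 2 * r₀ ^ 2 / ε := by positivity
    linarith
  have hA5 : 2 * r₀ ^ 2 / ε ≤ A := by
    rw [hA]
    have : 0 ≤ 6 + 864 / (th ^ 2 * κ₂) + 200 / κ1 ^ 2 + 2 * Lam := by positivity
    linarith
  obtain ⟨X1, hX1⟩ := hSN K r A hK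
  obtain ⟨X2, hX2⟩ := hEW K r hK
  obtain ⟨X3, hX3⟩ := hEJ th (κ₂ / 16) K r hth hth1 (by positivity) hK
  refine ⟨max X1 (max X2 X3), ?_⟩
  intro S k₁ lam t g hS hX hL ht hG hgk hSp hdf
  have hXa : X1 ≤ S.X := (le_max_left _ _).trans hX
  have hXb : X2 ≤ S.X := ((le_max_left _ _).trans (le_max_right _ _)).trans hX
  have hXc : X3 ≤ S.X := ((le_max_right _ _).trans (le_max_right _ _)).trans hX
  have hB : B1 lam := by
    intro n
    rcases hL.pm n with h | h <;> rw [h] <;> norm_num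
  obtain ⟨hSL, -, -, -, -, hSt, hSl, hSQ⟩ := hX1 S k₁ hS hXa
  obtain ⟨hNA, -, -, -, -, -, hNl⟩ := hSt t ht
  obtain ⟨N, hN⟩ : ∃ N, N = Nt S t := ⟨_, rfl⟩
  obtain ⟨n, hn⟩ : ∃ n, n = S.n t := ⟨_, rfl⟩
  rw [← hN] at hNA hNl hSp hdf
  rw [← hn] at hdf
  have hN0 : (0 : ℝ) < N := lt_of_lt_of_le hA0 hNA
  have hN1 : 1 ≤ N := by
    have : (0 : ℝ) < N := hN0
    exact_mod_cast this
  -- the norm of g
  obtain ⟨-, hEn0, -, -, -, hgn, -⟩ := hRB th lam 1 N n hth hB le_rfl hN1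
  have hnm : g.nm ≤ 2 / th := by
    refine hgn g hN1 ?_
    unfold df at hdf
    linarith
  -- primes
  have hPr : ∀ p ∈ S.Q, p.Prime ∧ S.P ≤ p ∧ ∃ i < 2 * K + 2, p ∈ QQ (lv S.X i) ∧
      p ^ 2 ≤ 2 ^ lv S.X i := by
    intro p hp
    have h1 := (mem_Pr (pow_nonneg (Par.P_pos (S := S)).le _)).1 hp
    obtain ⟨i, hi, hq⟩ := hSQ p hp
    refine ⟨h1.2.2, h1.1.le, i, hi, hq, ?_⟩
    have h2 : p ≤ 2 ^ (lv S.X i / 200) := (mem_Ioc.1 (mem_filter.1 hq).1).2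
    calc p ^ 2 ≤ (2 ^ (lv S.X i / 200)) ^ 2 := Nat.pow_le_pow_left h2 2
      _ = 2 ^ (lv S.X i / 200 * 2) := by rw [← pow_mul]
      _ ≤ 2 ^ lv S.X i := Nat.pow_le_pow_right (by norm_num) (by omega)
  have hpq : ∀ p ∈ S.Q, ∀ q ∈ S.Q, 2 * Lam * (p : ℝ) * q < N := by
    intro p hp q hq
    obtain ⟨-, -, i, hi, -, h1⟩ := hPr p hp
    obtain ⟨-, -, j, hj, -, h2⟩ := hPr q hq
    have h1' : (p : ℝ) ^ 2 ≤ 2 ^ lv S.X i := by exact_mod_cast h1
    have h2' : (q : ℝ) ^ 2 ≤ 2 ^ lv S.X j := by exact_mod_cast h2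
    have h3 := hNl i hi
    have h4 := hNl j hj
    obtain ⟨a, ha⟩ : ∃ a : ℝ, a = 2 ^ lv S.X i := ⟨_, rfl⟩
    obtain ⟨b, hb⟩ : ∃ b : ℝ, b = 2 ^ lv S.X j := ⟨_, rfl⟩
    rw [← ha] at h1' h3
    rw [← hb] at h2' h4
    have ha0 : 0 < a := by rw [ha]; positivity
    have hb0 : 0 < b := by rw [hb]; positivity
    have h5 : 2 * Lam * (p : ℝ) * q ≤ Lam * (a + b) := by
      have h6 : 2 * (p : ℝ) * q ≤ a + b := by linarith [two_mul_le_add_sq (p : ℝ) q]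
      calc 2 * Lam * (p : ℝ) * q = Lam * (2 * (p : ℝ) * q) := by ring
        _ ≤ Lam * (a + b) := mul_le_mul_of_nonneg_left h6 hLam0.le
    have h7 : Lam * (a + b) < A / 2 * (a + b) :=
      mul_lt_mul_of_pos_right (by linarith) (by linarith)
    have h8 : A / 2 * (a + b) ≤ N := by linarith
    linarith
  obtain ⟨E, hE1, hE2⟩ : ∃ E : Finset ℕ, ∑ p ∈ E, 1 / (p : ℝ) ≤ (g.k : ℝ) ^ 2 / S.P ∧
      ∀ p ∈ S.Q, p ∉ E → ∀ i < g.k, ∀ j < g.k, i ≠ j →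
        Lam / 2 * p / N ≤ nd (p * (g.a i - g.a j)) := by
    refine ⟨_, hEB S.P Lam S.Q N g ?_ hLam0 ?_ hpq hSp, ?_⟩
    · exact Real.one_le_exp (by
        have : S.L = Real.log S.X ^ (19 / 20 : ℝ) := rfl
        rw [← this]
        linarith)
    · intro p hp
      obtain ⟨h1, h2, -⟩ := hPr p hp
      refine ⟨h1, h2, ?_⟩
      have := hpq p hp p hp
      linarith [show 2 * Lam * (p : ℝ) ^ 2 = 2 * Lam * (p : ℝ) * p by ring]
    · intro p hp hE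
      by_contra hc
      exact hE (mem_filter.2 ⟨hp, hc⟩)
  have hT : ∀ i : ℕ, ∃ T : Finset ℕ, i < 2 * K + 2 →
      ∑ p ∈ T, 1 / (p : ℝ) ≤ κ / κ1 + g.k * (κ / κ3) ∧ ∀ p ∈ QQ (lv S.X i), p ∉ T →
      sl N n (fun v => |En th lam p (2 ^ lv S.X i) v - En th lam 1 (2 ^ lv S.X i) v|) ≤ κ1 ∧
      ∀ j < g.k,
        sl N n (fun v => zz lam p (2 ^ lv S.X i) v (g.a j) (fun _ => 1) ^ 2) ≤ κ3 := by
    intro i
    by_cases hi : i < 2 * K + 2
    · obtain ⟨hv, hzz, -⟩ := hSZ th W lam (lv S.X i) hth hth1 hB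
        (by have := (hSl i hi).1; omega) (hW _)
      have hs := (hG i (by rw [hS.hK]; exact hi) 1 (Or.inl rfl)).2
      rw [one_mul, ← hN, ← hn] at hs
      obtain ⟨T, hT⟩ := ed_lvl g hκ10 hκ30 (fun v => (hv v).1) (fun v => (hv v).2.2.1) hzz hs
      exact ⟨T, fun _ => hT⟩
    · exact ⟨∅, fun h => absurd h hi⟩
  choose T hT using hT
  -- the good primes
  have hgood : ∀ p ∈ S.Q, t - S.l p ∈ S.I → p ∉ E → (∀ i < 2 * K + 2, p ∉ T i) →
      Gp th κ₂ Lam₁ lam S g t p := by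
    intro p hp hpI hpE hpT
    obtain ⟨hpp, -, i, hi, hpi, hp2⟩ := hPr p hp
    obtain ⟨e4, j4⟩ := (hT i hi).2 p hpi (hpT i hi)
    have e3 := (hG i (by rw [hS.hK]; exact hi) 1 (Or.inl rfl)).1
    rw [one_mul, ← hN, ← hn] at e3
    obtain ⟨-, hw⟩ := hX2 S k₁ t p hS hXb ht hpI hp
    obtain ⟨j1, e1⟩ := hX3 S k₁ lam t p hS hXc hL ht hpI hp
    rw [← hN] at hw
    rw [← hN, ← hn] at e1
    have j1' := j1 g hnm
    rw [← hN, ← hn] at j1'
    obtain ⟨M, hM⟩ : ∃ M, M = 2 ^ lv S.X i := ⟨_, rfl⟩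
    rw [← hM] at e4 j4 e3 hp2
    have hp1 : 1 ≤ p := hpp.one_lt.le
    have hpM : p ≤ M := le_trans (by nlinarith) hp2
    have hAM : A * M ≤ N := by
      have := hNl i hi
      rw [hM]
      push_cast
      exact this
    have hM0 : (0 : ℝ) ≤ M := Nat.cast_nonneg _
    have hMN : M ≤ N := by
      have : (M : ℝ) ≤ N := by nlinarith
      exact_mod_cast this
    have hpN : p ≤ N := hpM.trans hMN
    have hsep := hE2 p hp hpE
    constructor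
    · have hx : (M : ℝ) / N ≤ 1 / A := by
        rw [div_le_div_iff₀ hN0 hA0]
        linarith
      have hx1 : 200 * (1 / A) ≤ κ1 ^ 2 := by
        rw [div_le_iff₀ (by positivity)] at hA3
        rw [mul_one_div, div_le_iff₀ hA0]
        linarith
      have hx2 : 864 * (1 / A) ≤ th ^ 2 * κ₂ := by
        rw [div_le_iff₀ (by positivity)] at hA2
        rw [mul_one_div, div_le_iff₀ hA0]
        linarith
      refine ed_df hth hth1 hκ₂ hLam0 e1 (hEQ th lam p M N n hth hth1 hB hp1 hpM hMN) e3 e4 j1'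
        (hER th (Lam / 2) lam p N n g hth (by linarith) hB hp1 hpN ?_ hsep)
        (fun i hi => hEZ lam p M N n _ hB hp1 hpM hMN) j4 hnm hx (by exact_mod_cast hpM) hdf
        hκb rfl hκ1 hκ3 hx1 hx2 hLb
      intro i hi j hj hij
      refine le_trans ?_ (hSp i hi j hj hij)
      exact div_le_div_of_nonneg_right (by linarith) hN0.le
    · intro i hi j hj hij
      have h1 := hsep i hi j hj hij
      have e : (pb p g).a i - (pb p g).a j = p * (g.a i - g.a j) := by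
        change (p : ℝ) * g.a i - p * g.a j = _
        ring
      rw [e]
      refine le_trans ?_ h1
      have hp0 : (0 : ℝ) < p := by exact_mod_cast hp1
      have hw1 := (abs_le.1 hw).1
      have h6 : 6 * (p : ℝ) ≤ N := by
        have h7 : (p : ℝ) ≤ M := by exact_mod_cast hpM
        calc 6 * (p : ℝ) ≤ A * M := mul_le_mul hA1 h7 hp0.le hA0.le
          _ ≤ N := hAM
      have h8 : (N : ℝ) / (2 * p) ≤ Nt S (t - S.l p) := by
        rw [div_le_iff₀ (by positivity)]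
        linarith
      have h9 : (0 : ℝ) < N / (2 * p) := by positivity
      calc Lam₁ / (Nt S (t - S.l p) : ℝ) ≤ Lam₁ / (N / (2 * p)) :=
            div_le_div_of_nonneg_left hLam₁.le h9 h8
        _ = (2 * Lam₁) * p / N := by
            field_simp
        _ ≤ Lam / 2 * p / N := by
            refine div_le_div_of_nonneg_right ?_ hN0.le
            exact mul_le_mul_of_nonneg_right (by linarith) hp0.le
  -- the sum
  have hsub : S.Q.filter (fun p : ℕ => t - S.l p ∈ S.I ∧ ¬ Gp th κ₂ Lam₁ lam S g t p) ⊆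
      E ∪ (range (2 * K + 2)).biUnion T := by
    intro p hp
    rw [mem_filter] at hp
    obtain ⟨hp1, hp2, hp3⟩ := hp
    rw [mem_union, mem_biUnion]
    by_contra hc
    push Not at hc
    exact hp3 (hgood p hp1 hp2 hc.1 fun i hi => hc.2 i (mem_range.2 hi))
  have hkr : (g.k : ℝ) ≤ r₀ := by
    rw [hr₀]
    exact_mod_cast hgk
  have hPA : A ≤ S.P := by
    have h1 : S.P = Real.exp S.L := rfl
    have h2 := Real.add_one_le_exp S.L
    rw [h1]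
    linarith
  have hP0 : 0 < S.P := Par.P_pos
  have hs1 : (g.k : ℝ) ^ 2 / S.P ≤ ε / 2 := by
    rw [div_le_iff₀ hP0]
    rw [div_le_iff₀ hε] at hA5
    have h1 : (g.k : ℝ) ^ 2 ≤ r₀ ^ 2 := pow_le_pow_left₀ (Nat.cast_nonneg _) hkr 2
    have h2 : A * ε ≤ S.P * ε := mul_le_mul_of_nonneg_right hPA hε.le
    linarith
  have hs2 : ∑ i ∈ range (2 * K + 2), ∑ p ∈ T i, 1 / (p : ℝ) ≤ ε / 2 := by
    calc ∑ i ∈ range (2 * K + 2), ∑ p ∈ T i, 1 / (p : ℝ) ≤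
        ∑ i ∈ range (2 * K + 2), (κ / κ1 + g.k * (κ / κ3)) :=
          sum_le_sum fun i hi => (hT i (mem_range.1 hi)).1
      _ = ((2 * K + 2 : ℕ) : ℝ) * (κ / κ1 + g.k * (κ / κ3)) := by
          rw [sum_const, card_range, nsmul_eq_mul]
      _ ≤ ((2 * K + 2 : ℕ) : ℝ) * (κ / κ1 + r₀ * (κ / κ3)) := by
          refine mul_le_mul_of_nonneg_left ?_ (Nat.cast_nonneg _)
          exact add_le_add le_rfl (mul_le_mul_of_nonneg_right hkr (by positivity))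
      _ = κ * D := by
          rw [hD]
          ring
      _ ≤ ε / 2 := by
          rw [le_div_iff₀ hD0] at hκc
          exact hκc
  calc _ ≤ ∑ p ∈ E ∪ (range (2 * K + 2)).biUnion T, 1 / (p : ℝ) :=
        sum_le_sum_of_subset_of_nonneg hsub fun p _ _ => by positivity
    _ ≤ ∑ p ∈ E, 1 / (p : ℝ) + ∑ i ∈ range (2 * K + 2), ∑ p ∈ T i, 1 / (p : ℝ) :=
        (ed_un _ _).trans (add_le_add le_rfl (ed_bu _ _))
    _ ≤ ε := by linarith

end Pool.Agent.H46.G3
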